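import Mathlib

set_option synthInstance.maxSize 2000

namespace Pool.Agent.Results.MP_9fddba_co.Counter

/-- `S` has a non-empty zero-sum subsequence. -/
def HasZS {G : Type} [AddCommGroup G] (S : Multiset G) : Prop :=
  ∃ T : Multiset G, T ≤ S ∧ T ≠ 0 ∧ T.sum = 0

/-- The Davenport constant: the least positive `t` such that every sequence of length at least
`t` has a non-empty zero-sum subsequence. -/
noncomputable def davenport (G : Type) [AddCommGroup G] : ℕ :=
  sInf {t : ℕ | 0 < t ∧ ∀ S : Multiset G, t ≤ Multiset.card S → HasZS S}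

/-- The statement of Q1, for `G ≃ C_{n 0} ⊕ ⋯ ⊕ C_{n r}` with `1 < n 0 ∣ n 1 ∣ ⋯ ∣ n r`. -/
def Conjecture : Prop :=
  ∀ (r : ℕ) (n : Fin (r + 1) → ℕ), 1 < n 0 → (∀ j, 0 < n j) →
    (∀ j : Fin r, n j.castSucc ∣ n j.succ) →
    ∀ (G : Type) [AddCommGroup G], Nonempty (G ≃+ ((j : Fin (r + 1)) → ZMod (n j))) →
    ∀ i : ℕ, 1 ≤ i → i ≤ n 0 →
    ∀ S : Multiset G, Multiset.card S = davenport G + i - 1 →
    ∀ A : Finset ℕ, A ⊆ Finset.Icc 1 (n 0 - 1) → A.card = i - 1 →
      ∃ T : Multiset G, T ≤ S ∧ T ≠ 0 ∧ T.sum = 0 ∧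
        ∀ b ∈ A, ¬ (Multiset.card T ≡ b [MOD n 0])

abbrev V := ZMod 2 × ZMod 2 × ZMod 2 × ZMod 2
abbrev H := V × ZMod 3

def dv (v : ℕ) : V := (((v : ℕ) : ZMod 2), ((v / 2 : ℕ) : ZMod 2), ((v / 4 : ℕ) : ZMod 2),
  ((v / 8 : ℕ) : ZMod 2))
def dec (c : ℕ) : H := (dv (c / 3), ((c : ℕ) : ZMod 3))

def In (M : ℕ) (x : H) : Prop := ∃ c, c < 48 ∧ M.testBit c = true ∧ dec c = x

def force {α : Type} (M : ℕ) (f : ℕ → α) : α :=
  Nat.rec (motive := fun _ => α) (f 0) (fun n _ => f n.succ) M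

lemma force_eq {α : Type} (M : ℕ) (f : ℕ → α) : force M f = f M := by cases M <;> rfl

def op (A B s s' M : ℕ) : ℕ := force M fun M => ((M &&& A) <<< s) ||| ((M >>> s') &&& B)

lemma op_in (A B s s' : ℕ) (e : H)
    (h1 : ∀ c < 48, s ≤ c → A.testBit (c - s) = true → dec (c - s) + e = dec c)
    (h2 : ∀ c < 48, B.testBit c = true → s' + c < 48 ∧ dec (s' + c) + e = dec c)
    (M : ℕ) (x : H) (h : In (op A B s s' M) x) : In M (x - e) := by
  obtain ⟨c, hc, hb, rfl⟩ := h
  simp only [op, force_eq, Nat.testBit_or, Nat.testBit_shiftLeft, Nat.testBit_and, Nat.testBit_shiftRight,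
    Bool.or_eq_true, Bool.and_eq_true, decide_eq_true_eq] at hb
  rcases hb with ⟨hs, hM, hA⟩ | ⟨hM, hB⟩
  · exact ⟨c - s, by omega, hM, by rw [← h1 c hc hs hA]; simp⟩
  · exact ⟨s' + c, (h2 c hc hB).1, hM, by rw [← (h2 c hc hB).2]; simp⟩

def sw0 (M : ℕ) : ℕ := op 31274997412295 31274997412295 3 3 M
def sw1 (M : ℕ) : ℕ := op 4330384257087 4330384257087 6 6 M
def sw2 (M : ℕ) : ℕ := op 68702703615 68702703615 12 12 M
def sw3 (M : ℕ) : ℕ := op 16777215 16777215 24 24 M
def rot (M : ℕ) : ℕ := op 120632132875995 40210710958665 1 2 M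

lemma sw0_in (M : ℕ) (x : H) (h : In (sw0 M) x) : In M (x - dec 3) :=
  op_in _ _ _ _ _ (by decide +kernel) (by decide +kernel) M x h
lemma sw1_in (M : ℕ) (x : H) (h : In (sw1 M) x) : In M (x - dec 6) :=
  op_in _ _ _ _ _ (by decide +kernel) (by decide +kernel) M x h
lemma sw2_in (M : ℕ) (x : H) (h : In (sw2 M) x) : In M (x - dec 12) :=
  op_in _ _ _ _ _ (by decide +kernel) (by decide +kernel) M x h
lemma sw3_in (M : ℕ) (x : H) (h : In (sw3 M) x) : In M (x - dec 24) :=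
  op_in _ _ _ _ _ (by decide +kernel) (by decide +kernel) M x h
lemma rot_in (M : ℕ) (x : H) (h : In (rot M) x) : In M (x - dec 1) :=
  op_in _ _ _ _ _ (by decide +kernel) (by decide +kernel) M x h

def cnd (b : Bool) (f : ℕ → ℕ) (M : ℕ) : ℕ := cond b (f M) M

lemma cnd_in (b : Bool) (f : ℕ → ℕ) (e : H) (hf : ∀ M x, In (f M) x → In M (x - e))
    (M : ℕ) (x : H) (h : In (cnd b f M) x) : In M (x - cond b e 0) := by
  cases b
  · simpa [cnd] using h
  · simpa [cnd] using hf M x h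

/-- translate by `- dec c` -/
def tr (c M : ℕ) : ℕ :=
  cnd ((c / 3).testBit 0) sw0 (cnd ((c / 3).testBit 1) sw1 (cnd ((c / 3).testBit 2) sw2
    (cnd ((c / 3).testBit 3) sw3 (cnd (Nat.beq (c % 3) 1) rot (cnd (!Nat.beq (c % 3) 0) rot M)))))

lemma tr_aux : ∀ c < 48, cond ((c / 3).testBit 0) (dec 3) 0 + cond ((c / 3).testBit 1) (dec 6) 0
    + cond ((c / 3).testBit 2) (dec 12) 0 + cond ((c / 3).testBit 3) (dec 24) 0
    + cond (Nat.beq (c % 3) 1) (dec 1) 0 + cond (!Nat.beq (c % 3) 0) (dec 1) 0 = - dec c := by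
  decide +kernel

lemma tr_in (c : ℕ) (hc : c < 48) (M : ℕ) (x : H) (h : In (tr c M) x) : In M (x + dec c) := by
  have h1 := cnd_in _ _ _ rot_in _ _ (cnd_in _ _ _ rot_in _ _ (cnd_in _ _ _ sw3_in _ _
    (cnd_in _ _ _ sw2_in _ _ (cnd_in _ _ _ sw1_in _ _ (cnd_in _ _ _ sw0_in _ _ h)))))
  have h2 := tr_aux c hc
  have : x + dec c = x - cond ((c / 3).testBit 0) (dec 3) 0 - cond ((c / 3).testBit 1) (dec 6) 0
    - cond ((c / 3).testBit 2) (dec 12) 0 - cond ((c / 3).testBit 3) (dec 24) 0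
    - cond (Nat.beq (c % 3) 1) (dec 1) 0 - cond (!Nat.beq (c % 3) 0) (dec 1) 0 := by
    rw [← neg_neg (dec c), ← h2]; abel
  rw [this]; exact h1

def ext (c M : ℕ) : ℕ := M ||| tr c M

def Rep (M : ℕ) (P : Multiset H) : Prop := ∀ x, In M x → ∃ T, T ≤ P ∧ T.sum = x

lemma rep_ext (c : ℕ) (hc : c < 48) (M : ℕ) (P : Multiset H) (h : Rep M P) :
    Rep (ext c M) ((- dec c) ::ₘ P) := by
  rintro x ⟨a, ha, hb, rfl⟩
  simp only [ext, Nat.testBit_or, Bool.or_eq_true] at hb
  rcases hb with hb | hb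
  · obtain ⟨T, hT, hs⟩ := h _ ⟨a, ha, hb, rfl⟩
    exact ⟨T, hT.trans (Multiset.le_cons_self _ _), hs⟩
  · obtain ⟨T, hT, hs⟩ := h _ (tr_in c hc M _ ⟨a, ha, hb, rfl⟩)
    exact ⟨(- dec c) ::ₘ T, Multiset.cons_le_cons _ hT, by simp [hs]⟩

lemma rep_one : Rep 1 0 := by
  rintro x ⟨a, ha, hb, rfl⟩
  have : a = 0 := by
    rcases a with _ | a
    · rfl
    · simp [Nat.testBit_succ] at hb
  subst this
  exact ⟨0, le_rfl, by decide⟩

def chk : ℕ → ℕ → ℕ → Bool
  | 0 => fun _ _ => false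
  | d + 1 => fun n M => Nat.rec (motive := fun _ => Bool) true
      (fun k ih => (M.testBit k || force (ext k M) (chk d (k + 1))) && ih) n

lemma chk_sound : ∀ (d n M : ℕ) (P R : Multiset H), n ≤ 48 → Rep M P → Multiset.card R = d →
    (∀ r ∈ R, ∃ c < n, r = - dec c) → chk d n M = true → HasZS (P + R) := by
  intro d
  induction d with
  | zero => intro n M P R _ _ _ _ h; simp [chk] at h
  | succ d ihd =>
    intro n
    induction n with
    | zero =>
      intro M P R _ _ hR hr _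
      obtain ⟨r, hr'⟩ := Multiset.card_pos_iff_exists_mem.1 (by omega : 0 < Multiset.card R)
      obtain ⟨c, hc, _⟩ := hr r hr'
      omega
    | succ n ihn =>
      intro M P R hn hP hR hr h
      have h' : ((M.testBit n || force (ext n M) (chk d (n + 1))) && chk (d + 1) n M) = true := h
      simp only [Bool.and_eq_true, Bool.or_eq_true, force_eq] at h'
      by_cases hm : - dec n ∈ R
      · obtain ⟨R', rfl⟩ := Multiset.exists_cons_of_mem hm
        rcases h'.1 with h1 | h1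
        · obtain ⟨T, hT, hs⟩ := hP _ ⟨n, by omega, h1, rfl⟩
          refine ⟨(- dec n) ::ₘ T, ?_, by simp, by simp [hs]⟩
          rw [Multiset.add_cons]
          exact Multiset.cons_le_cons _ (hT.trans (Multiset.le_add_right _ _))
        · have := ihd (n + 1) _ _ R' hn (rep_ext n (by omega) M P hP) (by simpa using hR)
            (fun r hr' => hr r (Multiset.mem_cons_of_mem hr')) h1
          rwa [Multiset.cons_add, ← Multiset.add_cons] at this
      · refine ihn M P R (by omega) hP hR (fun r hr' => ?_) h'.2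
        obtain ⟨c, hc, rfl⟩ := hr r hr'
        refine ⟨c, ?_, rfl⟩
        rcases Nat.lt_succ_iff_lt_or_eq.1 hc with h1 | rfl
        · exact h1
        · exact absurd hr' hm

lemma transfer (f : H →+ H) (hf : Function.Surjective f) (P R : Multiset H)
    (h : ∀ R' : Multiset H, Multiset.card R' = Multiset.card R → HasZS (P + R')) :
    HasZS (P.map f + R) := by
  obtain ⟨T, hT, h0, hs⟩ := h (R.map (Function.surjInv hf)) (by simp)
  refine ⟨T.map f, ?_, by simpa using h0, by rw [← map_multiset_sum, hs, map_zero]⟩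
  have := Multiset.map_le_map (f := f) hT
  simpa [Multiset.map_map, Function.comp_def, Function.surjInv_eq hf] using this

def psi (w0 w1 w2 w3 : V) : H →+ H :=
  AddMonoidHom.mk' (fun x => (x.1.1 • w0 + x.1.2.1 • w1 + x.1.2.2.1 • w2 + x.1.2.2.2 • w3, x.2))
    (by
      intro x y
      refine Prod.ext ?_ rfl
      simp only [Prod.fst_add, Prod.snd_add, add_smul]
      abel)

/-- the image of the `i`-th basis vector under the map fixing the first `k` basis vectors and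
sending the next one to the vector of `- dec c`. -/
def wv (k c i : ℕ) : V :=
  if i = k then dv (c / 3) else if k < i ∧ i = Nat.log2 (c / 3) then dv (2 ^ k) else dv (2 ^ i)

def ps (k c : ℕ) : H →+ H := psi (wv k c 0) (wv k c 1) (wv k c 2) (wv k c 3)

lemma dec_surj : ∀ x : H, ∃ c < 48, x = - dec c := by decide +kernel

lemma ps_surj_aux : ∀ k < 4, ∀ v < 16, 2 ^ k ≤ v → ∀ a : V, ∃ b : V,
    (ps k (3 * v) (b, 0)).1 = a := by decide +kernel

lemma ps_surj (k : ℕ) (hk : k < 4) (c : ℕ) (hc : c < 48) (h : 3 * 2 ^ k ≤ c) :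
    Function.Surjective (ps k c) := by
  rintro ⟨a, t⟩
  obtain ⟨b, hb⟩ := ps_surj_aux k hk (c / 3) (by omega) (by omega) a
  refine ⟨(b, t), Prod.ext ?_ rfl⟩
  have e : 3 * (c / 3) / 3 = c / 3 := by omega
  simp only [ps, wv, e] at hb
  exact hb

lemma ps_fix : ∀ k < 4, ∀ c < 48, ∀ a < 3 * 2 ^ k, ps k c (- dec a) = - dec a := by
  decide +kernel

lemma ps_new : ∀ k < 4, ∀ c < 48, ps k c (- dec (3 * 2 ^ k + c % 3)) = - dec c := by
  decide +kernel

/-- the statement at stage `k`, for a list `l` of codes already fixed -/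
def Stage (l : List ℕ) (d : ℕ) : Prop :=
  ∀ R : Multiset H, Multiset.card R = d → HasZS (((l.map fun a => - dec a : List H) : Multiset H) + R)

def mk : List ℕ → ℕ
  | [] => 1
  | a :: l => ext a (mk l)

lemma rep_mk : ∀ l : List ℕ, (∀ a ∈ l, a < 48) →
    Rep (mk l) ((l.map fun a => - dec a : List H) : Multiset H)
  | [], _ => rep_one
  | a :: l, h => by
    have := rep_ext a (h a (by simp)) _ _ (rep_mk l (fun b hb => h b (by simp [hb])))
    simpa [mk] using this

lemma stage_step (k : ℕ) (hk : k < 4) (l : List ℕ) (hl : ∀ a ∈ l, a < 3 * 2 ^ k) (d : ℕ)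
    (hc : chk (d + 1) (3 * 2 ^ k) (mk l) = true)
    (hn : ∀ t < 3, Stage ((3 * 2 ^ k + t) :: l) d) : Stage l (d + 1) := by
  have h48 : 3 * 2 ^ k ≤ 48 := by interval_cases k <;> norm_num
  intro R hR
  by_cases hall : ∀ r ∈ R, ∃ c < 3 * 2 ^ k, r = - dec c
  · exact chk_sound _ _ _ _ R h48 (rep_mk l fun a ha => by have := hl a ha; omega) hR hall hc
  · push Not at hall
    obtain ⟨r, hr, hr'⟩ := hall
    obtain ⟨c, hc48, rfl⟩ := dec_surj r
    have hck : 3 * 2 ^ k ≤ c := by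
      by_contra hlt
      exact hr' c (by omega) rfl
    obtain ⟨R', rfl⟩ := Multiset.exists_cons_of_mem hr
    have := transfer (ps k c) (ps_surj k hk c hc48 hck) _ R'
      (fun R'' h'' => hn (c % 3) (Nat.mod_lt _ (by norm_num)) R'' (by
        rw [h'']; simpa using hR))
    have e : ((((3 * 2 ^ k + c % 3) :: l).map fun a => - dec a : List H) : Multiset H).map (ps k c)
        = (- dec c) ::ₘ ((l.map fun a => - dec a : List H) : Multiset H) := by
      rw [Multiset.map_coe, List.map_cons, List.map_cons, ps_new k hk c hc48, List.map_map,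
        ← Multiset.cons_coe]
      congr 2
      exact List.map_congr_left fun a ha => ps_fix k hk c hc48 a (hl a ha)
    rwa [e, Multiset.cons_add, ← Multiset.add_cons] at this

lemma c4_000 : ∀ t4 < 3, force (mk [24 + t4, 12 + 0, 6 + 0, 3 + 0]) (chk 5 48) = true := by
  decide +kernel
lemma c4_001 : ∀ t4 < 3, force (mk [24 + t4, 12 + 1, 6 + 0, 3 + 0]) (chk 5 48) = true := by
  decide +kernel
lemma c4_002 : ∀ t4 < 3, force (mk [24 + t4, 12 + 2, 6 + 0, 3 + 0]) (chk 5 48) = true := by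
  decide +kernel
lemma c4_010 : ∀ t4 < 3, force (mk [24 + t4, 12 + 0, 6 + 1, 3 + 0]) (chk 5 48) = true := by
  decide +kernel
lemma c4_011 : ∀ t4 < 3, force (mk [24 + t4, 12 + 1, 6 + 1, 3 + 0]) (chk 5 48) = true := by
  decide +kernel
lemma c4_012 : ∀ t4 < 3, force (mk [24 + t4, 12 + 2, 6 + 1, 3 + 0]) (chk 5 48) = true := by
  decide +kernel
lemma c4_020 : ∀ t4 < 3, force (mk [24 + t4, 12 + 0, 6 + 2, 3 + 0]) (chk 5 48) = true := by
  decide +kernel
lemma c4_021 : ∀ t4 < 3, force (mk [24 + t4, 12 + 1, 6 + 2, 3 + 0]) (chk 5 48) = true := by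
  decide +kernel
lemma c4_022 : ∀ t4 < 3, force (mk [24 + t4, 12 + 2, 6 + 2, 3 + 0]) (chk 5 48) = true := by
  decide +kernel
lemma c4_100 : ∀ t4 < 3, force (mk [24 + t4, 12 + 0, 6 + 0, 3 + 1]) (chk 5 48) = true := by
  decide +kernel
lemma c4_101 : ∀ t4 < 3, force (mk [24 + t4, 12 + 1, 6 + 0, 3 + 1]) (chk 5 48) = true := by
  decide +kernel
lemma c4_102 : ∀ t4 < 3, force (mk [24 + t4, 12 + 2, 6 + 0, 3 + 1]) (chk 5 48) = true := by
  decide +kernel
lemma c4_110 : ∀ t4 < 3, force (mk [24 + t4, 12 + 0, 6 + 1, 3 + 1]) (chk 5 48) = true := by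
  decide +kernel
lemma c4_111 : ∀ t4 < 3, force (mk [24 + t4, 12 + 1, 6 + 1, 3 + 1]) (chk 5 48) = true := by
  decide +kernel
lemma c4_112 : ∀ t4 < 3, force (mk [24 + t4, 12 + 2, 6 + 1, 3 + 1]) (chk 5 48) = true := by
  decide +kernel
lemma c4_120 : ∀ t4 < 3, force (mk [24 + t4, 12 + 0, 6 + 2, 3 + 1]) (chk 5 48) = true := by
  decide +kernel
lemma c4_121 : ∀ t4 < 3, force (mk [24 + t4, 12 + 1, 6 + 2, 3 + 1]) (chk 5 48) = true := by
  decide +kernel
lemma c4_122 : ∀ t4 < 3, force (mk [24 + t4, 12 + 2, 6 + 2, 3 + 1]) (chk 5 48) = true := by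
  decide +kernel
lemma c4_200 : ∀ t4 < 3, force (mk [24 + t4, 12 + 0, 6 + 0, 3 + 2]) (chk 5 48) = true := by
  decide +kernel
lemma c4_201 : ∀ t4 < 3, force (mk [24 + t4, 12 + 1, 6 + 0, 3 + 2]) (chk 5 48) = true := by
  decide +kernel
lemma c4_202 : ∀ t4 < 3, force (mk [24 + t4, 12 + 2, 6 + 0, 3 + 2]) (chk 5 48) = true := by
  decide +kernel
lemma c4_210 : ∀ t4 < 3, force (mk [24 + t4, 12 + 0, 6 + 1, 3 + 2]) (chk 5 48) = true := by
  decide +kernel
lemma c4_211 : ∀ t4 < 3, force (mk [24 + t4, 12 + 1, 6 + 1, 3 + 2]) (chk 5 48) = true := by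
  decide +kernel
lemma c4_212 : ∀ t4 < 3, force (mk [24 + t4, 12 + 2, 6 + 1, 3 + 2]) (chk 5 48) = true := by
  decide +kernel
lemma c4_220 : ∀ t4 < 3, force (mk [24 + t4, 12 + 0, 6 + 2, 3 + 2]) (chk 5 48) = true := by
  decide +kernel
lemma c4_221 : ∀ t4 < 3, force (mk [24 + t4, 12 + 1, 6 + 2, 3 + 2]) (chk 5 48) = true := by
  decide +kernel
lemma c4_222 : ∀ t4 < 3, force (mk [24 + t4, 12 + 2, 6 + 2, 3 + 2]) (chk 5 48) = true := by
  decide +kernel
lemma c4 : ∀ t1 < 3, ∀ t2 < 3, ∀ t3 < 3, ∀ t4 < 3,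
    force (mk [24 + t4, 12 + t3, 6 + t2, 3 + t1]) (chk 5 48) = true := by
  intro t1 h1 t2 h2 t3 h3
  interval_cases t1 <;> interval_cases t2 <;> interval_cases t3
  exacts [c4_000, c4_001, c4_002, c4_010, c4_011, c4_012, c4_020, c4_021, c4_022, c4_100, c4_101, c4_102, c4_110, c4_111, c4_112, c4_120, c4_121, c4_122, c4_200, c4_201, c4_202, c4_210, c4_211, c4_212, c4_220, c4_221, c4_222]
lemma c3 : ∀ t1 < 3, ∀ t2 < 3, ∀ t3 < 3,
    force (mk [12 + t3, 6 + t2, 3 + t1]) (chk 6 24) = true := by decide +kernel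
lemma c2 : ∀ t1 < 3, ∀ t2 < 3, force (mk [6 + t2, 3 + t1]) (chk 7 12) = true := by decide +kernel
lemma c1 : ∀ t1 < 3, force (mk [3 + t1]) (chk 8 6) = true := by decide +kernel
lemma c0 : chk 9 3 (mk []) = true := by decide +kernel

lemma upper : Stage [] 9 := by
  refine stage_step 0 (by norm_num) _ (by simp) 8 c0 fun t1 h1 => ?_
  refine stage_step 1 (by norm_num) _ (by simp; omega) 7 (by simpa [force_eq] using c1 t1 h1) fun t2 h2 => ?_
  refine stage_step 2 (by norm_num) _ (by simp; omega) 6 (by simpa [force_eq] using c2 t1 h1 t2 h2) fun t3 h3 => ?_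
  refine stage_step 3 (by norm_num) _ (by simp; omega) 5 (by simpa [force_eq] using c3 t1 h1 t2 h2 t3 h3) fun t4 h4 => ?_
  intro R hR
  exact chk_sound _ _ _ _ R le_rfl (rep_mk _ (by simp; omega)) hR (fun r _ => dec_surj r)
    (by simpa [force_eq] using c4 t1 h1 t2 h2 t3 h3 t4 h4)

lemma sub_list (l : List H) (T : Multiset H) (h : T ≤ (l : Multiset H)) :
    ∃ s ∈ l.sublists, (s : Multiset H) = T := by
  induction T using Quotient.inductionOn with
  | h t =>
    obtain ⟨s, hs, hp⟩ := Multiset.coe_le.1 h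
    exact ⟨s, List.mem_sublists.2 hp, Quotient.sound hs⟩

def free8 : List H := [3, 6, 12, 25, 25, 25, 25, 25].map dec
def seq10 : List H := [2, 4, 7, 13, 25, 2, 2, 22, 34, 40].map dec

lemma free8_ok : ∀ s ∈ free8.sublists, s.sum = 0 → s.length = 0 := by decide +kernel
lemma seq10_ok : ∀ s ∈ seq10.sublists, s.sum = 0 → s.length = 0 ∨ s.length % 2 = 1 := by
  decide +kernel

lemma dav : davenport H = 9 := by
  have hmem : 9 ∈ {t : ℕ | 0 < t ∧ ∀ S : Multiset H, t ≤ Multiset.card S → HasZS S} := by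
    refine ⟨by norm_num, fun S hS => ?_⟩
    induction S using Quotient.inductionOn with
    | h l =>
      have hl : 9 ≤ l.length := hS
      obtain ⟨T, hT, h⟩ := upper ((l.take 9 : List H) : Multiset H) (by simp [hl])
      refine ⟨T, hT.trans ?_, h⟩
      simpa using (List.take_sublist 9 l).subperm
  refine le_antisymm (Nat.sInf_le hmem) ?_
  by_contra hlt
  obtain ⟨-, h⟩ := Nat.sInf_mem ⟨9, hmem⟩
  obtain ⟨T, hT, h0, hs⟩ := h (free8 : Multiset H) (by
    have : Multiset.card (free8 : Multiset H) = 8 := rfl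
    unfold davenport at hlt; omega)
  obtain ⟨s, hs', rfl⟩ := sub_list _ _ hT
  have := free8_ok s hs' (by simpa using hs)
  exact h0 (by rw [List.length_eq_zero_iff.1 this]; rfl)

def nn : Fin 4 → ℕ := ![2, 2, 2, 6]

def up (a : ZMod 2) (t : ZMod 3) : ZMod 6 := ((3 * a.val + 4 * t.val : ℕ) : ZMod 6)

def iso : H ≃+ ((j : Fin 4) → ZMod (nn j)) where
  toFun x := fun j => match j with
    | 0 => x.1.1
    | 1 => x.1.2.1
    | 2 => x.1.2.2.1
    | 3 => up x.1.2.2.2 x.2
  invFun y := ((y 0, y 1, y 2, (((show ZMod 6 from y 3).val : ℕ) : ZMod 2)),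
    (((show ZMod 6 from y 3).val : ℕ) : ZMod 3))
  left_inv := by
    rintro ⟨⟨a, b, c, d⟩, t⟩
    have : ∀ (d : ZMod 2) (t : ZMod 3), (((up d t).val : ℕ) : ZMod 2) = d ∧
        (((up d t).val : ℕ) : ZMod 3) = t := by decide
    exact Prod.ext (Prod.ext rfl (Prod.ext rfl (Prod.ext rfl (this d t).1))) (this d t).2
  right_inv := by
    intro y
    have : ∀ z : ZMod 6, up ((z.val : ℕ) : ZMod 2) ((z.val : ℕ) : ZMod 3) = z := by decide
    funext j
    match j with
    | 0 => rfl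
    | 1 => rfl
    | 2 => rfl
    | 3 => exact this (y 3)
  map_add' := by
    intro x y
    have : ∀ (a b : ZMod 2) (s t : ZMod 3), up (a + b) (s + t) = up a s + up b t := by decide
    funext j
    match j with
    | 0 => rfl
    | 1 => rfl
    | 2 => rfl
    | 3 => exact this _ _ _ _

theorem result : ¬ Conjecture := by
  intro h
  obtain ⟨T, hT, h0, hs, hb⟩ := h 3 nn (by decide) (by decide) (by decide) H ⟨iso⟩ 2
    (by norm_num) (by decide) (seq10 : Multiset H) (by rw [dav]; rfl) {1} (by decide) rfl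
  obtain ⟨s, hs', rfl⟩ := sub_list _ _ hT
  rcases seq10_ok s hs' (by simpa using hs) with h1 | h1
  · exact h0 (by rw [List.length_eq_zero_iff.1 h1]; rfl)
  · exact hb 1 (by simp) h1

end Pool.Agent.Results.MP_9fddba_co.Counter
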